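import Pool.Agent.Helper24.Zono.Final

/-!
# Zonotopes approximating the Euclidean ball: the order of the number of segments up to logarithms
-/

open scoped BigOperators RealInnerProductSpace

namespace Pool.Agent.Results.MP_afcad2_gt.NearSharp

/-- There is an absolute constant `c > 0` such that, for all `n ≥ 1` and all
`e^{-cn} ≤ ε ≤ 1/2`, every zonotope with `N` segments `[-x j, x j]` lying between `(1-ε)B` and
`(1+ε)B` in `ℝⁿ` satisfies `N ≥ c n ε⁻² (log (1/ε))⁻⁶`. -/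
theorem result : ∃ c : ℝ, 0 < c ∧ ∀ n : ℕ, 1 ≤ n → ∀ ε : ℝ,
    Real.exp (-(c * n)) ≤ ε → ε ≤ 1 / 2 →
    ∀ (N : ℕ) (x : Fin N → EuclideanSpace ℝ (Fin n)),
      (∀ y : EuclideanSpace ℝ (Fin n), (1 - ε) * ‖y‖ ≤ ∑ j, |⟪y, x j⟫| ∧
        ∑ j, |⟪y, x j⟫| ≤ (1 + ε) * ‖y‖) →
      c * (n / (ε ^ 2 * Real.log (1 / ε) ^ 6)) ≤ N := by
  obtain ⟨c, hc, h⟩ := Pool.Agent.Helper24.Zono.near_sharp
  refine ⟨c, hc, fun n hn ε hε1 hε2 N x hx => ?_⟩
  have h1 := h n N x ε hn hε1 hε2 (fun y => (hx y).1) (fun y => (hx y).2)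
  rwa [mul_div_assoc] at h1

end Pool.Agent.Results.MP_afcad2_gt.NearSharp
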