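import Pool.Agent.Helper47.LB.Final

/-!
# Zonotope approximation of the ball: exact order in every polynomial range
-/

open scoped RealInnerProductSpace

namespace Pool.Agent.Results.MP_afcad2_gt.PolynomialRange

/-- The zonotope `∑ [-x_j, x_j]` in `ℝⁿ` lies between `(1-ε) B` and `(1+ε) B`: two-sided bound
for its support function `v ↦ ∑ |⟨v, x_j⟩|`. -/
def Approximates {n N : ℕ} (ε : ℝ) (x : Fin N → EuclideanSpace ℝ (Fin n)) : Prop :=
  ∀ v : EuclideanSpace ℝ (Fin n),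
    (1 - ε) * ‖v‖ ≤ ∑ j, |⟪v, x j⟫| ∧ ∑ j, |⟪v, x j⟫| ≤ (1 + ε) * ‖v‖

/-- For every real exponent `A` there is `c > 0` such that for all `n ≥ 1` and all `ε` with
`n^{-A} ≤ ε < 1`, every approximating zonotope has at least `c n / ε²` segments. -/
theorem result (A : ℝ) : ∃ c : ℝ, 0 < c ∧
    ∀ (n N : ℕ) (ε : ℝ) (x : Fin N → EuclideanSpace ℝ (Fin n)), 1 ≤ n →
      (n : ℝ) ^ (-A) ≤ ε → ε < 1 → Approximates ε x → c * (n / ε ^ 2) ≤ N := by
  obtain ⟨c₀, hc₀, h₀⟩ := Pool.Agent.Helper61.Zono.main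
  obtain ⟨c, hc, h⟩ := Pool.Agent.Helper47.LB.log_free_poly ⌈A⌉₊
  refine ⟨min c (c₀ / 4), lt_min hc (by positivity), ?_⟩
  intro n N ε x hn hεn hε1 hx
  have hn1 : (1 : ℝ) ≤ (n : ℝ) := by exact_mod_cast hn
  have hn0 : (0 : ℝ) < (n : ℝ) := by linarith
  have hnA : 0 < (n : ℝ) ^ (-A) := Real.rpow_pos_of_pos hn0 _
  have hε0 : 0 < ε := lt_of_lt_of_le hnA hεn
  have hq : 0 ≤ (n : ℝ) / ε ^ 2 := by positivity
  rcases le_or_gt ε (1 / 2) with h2 | h2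
  · have h3 : 1 ≤ ε * (n : ℝ) ^ ⌈A⌉₊ := by
      have h4 : (n : ℝ) ^ A ≤ (n : ℝ) ^ (⌈A⌉₊ : ℕ) := by
        rw [← Real.rpow_natCast]
        exact Real.rpow_le_rpow_of_exponent_le hn1 (Nat.le_ceil A)
      have h5 : (n : ℝ) ^ (-A) * (n : ℝ) ^ A = 1 := by
        rw [← Real.rpow_add hn0]
        simp
      calc (1 : ℝ) = (n : ℝ) ^ (-A) * (n : ℝ) ^ A := h5.symm
        _ ≤ ε * (n : ℝ) ^ ⌈A⌉₊ := mul_le_mul hεn h4 (by positivity) hε0.le
    have h6 := h n N x ε hn h3 h2 (fun y => (hx y).1) (fun y => (hx y).2)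
    exact le_trans (mul_le_mul_of_nonneg_right (min_le_left _ _) hq) h6
  · have h3 := h₀ n N ε x hε0 hε1 hx
    have h4 : (n : ℝ) / ε ^ 2 ≤ 4 * n := by
      rw [div_le_iff₀ (by positivity)]
      have h41 : (1 : ℝ) ≤ 4 * ε ^ 2 := by nlinarith
      nlinarith [mul_le_mul_of_nonneg_left h41 hn0.le]
    have h5 : (n : ℝ) ≤ min ((n : ℝ) ^ 2) (n / ε ^ 2) := by
      refine le_min (by nlinarith) ?_
      rw [le_div_iff₀ (by positivity)]
      have h51 : ε ^ 2 ≤ 1 := by nlinarith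
      nlinarith [mul_le_mul_of_nonneg_left h51 hn0.le]
    calc min c (c₀ / 4) * (n / ε ^ 2) ≤ c₀ / 4 * (4 * n) :=
          mul_le_mul (min_le_right _ _) h4 hq (by positivity)
      _ = c₀ * n := by ring
      _ ≤ c₀ * min ((n : ℝ) ^ 2) (n / ε ^ 2) := mul_le_mul_of_nonneg_left h5 hc₀.le
      _ ≤ N := h3

end Pool.Agent.Results.MP_afcad2_gt.PolynomialRange
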