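import Pool.Agent.Helper47.UB.Final

/-!
# Zonotope approximation of the ball: fewer than `n/ε²` segments in the super-polynomial range
-/

open scoped RealInnerProductSpace

namespace Pool.Agent.Results.MP_afcad2_gt.SuperPolynomial

/-- The zonotope `∑ [-x_j, x_j]` in `ℝⁿ` lies between `(1-ε) B` and `(1+ε) B`: two-sided bound
for its support function `v ↦ ∑ |⟨v, x_j⟩|`. -/
def Approximates {n N : ℕ} (ε : ℝ) (x : Fin N → EuclideanSpace ℝ (Fin n)) : Prop :=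
  ∀ v : EuclideanSpace ℝ (Fin n),
    (1 - ε) * ‖v‖ ≤ ∑ j, |⟪v, x j⟫| ∧ ∑ j, |⟪v, x j⟫| ≤ (1 + ε) * ‖v‖

/-- `N(n, ε)`: the least `N` such that `N` segments suffice. -/
noncomputable def leastN (n : ℕ) (ε : ℝ) : ℕ :=
  sInf {N : ℕ | ∃ x : Fin N → EuclideanSpace ℝ (Fin n), Approximates ε x}

/-- The exponent `κ` with `ε = n^{-κ}`. -/
noncomputable def kappa (n : ℕ) (ε : ℝ) : ℝ := Real.log (1 / ε) / Real.log n

/-- There are absolute constants `A ≥ 3`, `C > 0` such that for all `n ≥ 2` and `0 < ε ≤ n^{-A}`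
`N(n,ε) ≤ C (n/ε²) (log κ) / κ^{3/2}`, where `ε = n^{-κ}` (and `N(n,ε)` is attained). -/
theorem result : ∃ A C : ℝ, 3 ≤ A ∧ 0 < C ∧ ∀ (n : ℕ) (ε : ℝ), 2 ≤ n → 0 < ε →
    ε ≤ (n : ℝ) ^ (-A) →
    (∃ x : Fin (leastN n ε) → EuclideanSpace ℝ (Fin n), Approximates ε x) ∧
    (leastN n ε : ℝ) ≤ C * (n / ε ^ 2) * (Real.log (kappa n ε) / (kappa n ε) ^ (3 / 2 : ℝ)) := by
  obtain ⟨A, C, hA, hC, h⟩ := Pool.Agent.Helper47.UB.upper_superpoly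
  refine ⟨A, C, hA, hC, fun n ε hn h0 he => ?_⟩
  obtain ⟨N, x, hx, hN⟩ := h n ε hn h0 he
  have hne : {N : ℕ | ∃ x : Fin N → EuclideanSpace ℝ (Fin n), Approximates ε x}.Nonempty :=
    ⟨N, x, hx⟩
  obtain ⟨y, hy⟩ := Nat.sInf_mem hne
  refine ⟨⟨y, hy⟩, ?_⟩
  have hle : leastN n ε ≤ N := Nat.sInf_le ⟨x, hx⟩
  exact le_trans (by exact_mod_cast hle) hN

end Pool.Agent.Results.MP_afcad2_gt.SuperPolynomial
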