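import Pool.Agent.Helper47.ZC.Main

/-!
# Zonotope approximation of the ball: two-sided bound uniform in the dimension
-/

open scoped RealInnerProductSpace

namespace Pool.Agent.Results.MP_afcad2_gt.UniformTwoSided

/-- The zonotope `∑ [-x_j, x_j]` in `ℝⁿ` lies between `(1-ε) B` and `(1+ε) B`: two-sided bound
for its support function `v ↦ ∑ |⟨v, x_j⟩|`. -/
def Approximates {n N : ℕ} (ε : ℝ) (x : Fin N → EuclideanSpace ℝ (Fin n)) : Prop :=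
  ∀ v : EuclideanSpace ℝ (Fin n),
    (1 - ε) * ‖v‖ ≤ ∑ j, |⟪v, x j⟫| ∧ ∑ j, |⟪v, x j⟫| ≤ (1 + ε) * ‖v‖

/-- `N(n, ε)`: the least `N` such that `N` segments suffice. -/
noncomputable def leastN (n : ℕ) (ε : ℝ) : ℕ :=
  sInf {N : ℕ | ∃ x : Fin N → EuclideanSpace ℝ (Fin n), Approximates ε x}

/-- There are absolute constants `c, C > 0` such that for all `n ≥ 2` and all `0 < ε ≤ 1/2`
`c n^{-3/2} ε^{-2(n-1)/(n+2)} ≤ N(n,ε) ≤ C n^7 log(1/ε) ε^{-2(n-1)/(n+2)}` (and `N(n,ε)` is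
attained). -/
theorem result : ∃ c C : ℝ, 0 < c ∧ 0 < C ∧ ∀ (n : ℕ) (ε : ℝ), 2 ≤ n → 0 < ε → ε ≤ 1 / 2 →
    (∃ x : Fin (leastN n ε) → EuclideanSpace ℝ (Fin n), Approximates ε x) ∧
    c * (n : ℝ) ^ (-(3 / 2) : ℝ) * ε ^ (-(2 * ((n : ℝ) - 1) / ((n : ℝ) + 2))) ≤ leastN n ε ∧
    (leastN n ε : ℝ) ≤ C * (n : ℝ) ^ 7 * Real.log (1 / ε)
        * ε ^ (-(2 * ((n : ℝ) - 1) / ((n : ℝ) + 2))) := by
  obtain ⟨c, C, hc, hC, h⟩ := Pool.Agent.Helper47.ZC.two_sided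
  refine ⟨c, C, hc, hC, fun n ε hn h0 he => ?_⟩
  obtain ⟨h1, N, x, hx, hN⟩ := h n ε hn h0 he
  have hne : {N : ℕ | ∃ x : Fin N → EuclideanSpace ℝ (Fin n), Approximates ε x}.Nonempty :=
    ⟨N, x, hx⟩
  have hmem := Nat.sInf_mem hne
  obtain ⟨y, hy⟩ := hmem
  refine ⟨⟨y, hy⟩, h1 _ y hy, ?_⟩
  have hle : leastN n ε ≤ N := Nat.sInf_le ⟨x, hx⟩
  exact le_trans (by exact_mod_cast hle) hN

end Pool.Agent.Results.MP_afcad2_gt.UniformTwoSided
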